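import Pool.Agent.Helper92.Ru.GoalsW

/-! Packet 1629 (W2): `StarB → StarR` by averaging over the block permutations. -/

set_option autoImplicit false

open MvPolynomial

namespace Pool.Agent.Helper86.Ru

open Pool.Agent.Helper92.Ru

theorem MHom.zero' {k : Type} [Field k] {d n m : ℕ} : MHom m (0 : BB k d n) := by
  intro e he
  simp at he

theorem MHom.sum' {k : Type} [Field k] {d n m : ℕ} {ι : Type*} (s : Finset ι)
    (f : ι → BB k d n) (h : ∀ i ∈ s, MHom m (f i)) : MHom m (∑ i ∈ s, f i) := by
  classical
  induction s using Finset.induction_on with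
  | empty => simpa using MHom.zero'
  | insert a s ha ih =>
    rw [Finset.sum_insert ha]
    exact (h a (Finset.mem_insert_self _ _)).add (ih fun i hi => h i (Finset.mem_insert_of_mem hi))

theorem MHom.perm {k : Type} [Field k] {d n m : ℕ} (π : Equiv.Perm (Fin d)) {f : BB k d n}
    (hf : MHom m f) : MHom m (permB k d n π f) := by
  classical
  intro e he j
  have hinj : Function.Injective (fun p : Fin d × Fin (n + 1) => (π p.1, p.2)) := by
    rintro ⟨a, b⟩ ⟨c, e⟩ h
    simpa using h
  have he0 : e ∈ (rename (fun p : Fin d × Fin (n + 1) => (π p.1, p.2)) f).support := he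
  rw [support_rename_of_injective hinj] at he0
  obtain ⟨e', he', hee⟩ := Finset.mem_image.1 he0
  subst hee
  rw [← hf e' he' (π.symm j)]
  refine Finset.sum_congr rfl fun i _ => ?_
  have := Finsupp.mapDomain_apply hinj e' (π.symm j, i)
  simpa using this

theorem permB_Nl {k : Type} [Field k] (d n : ℕ) (π : Equiv.Perm (Fin d)) (a : Fin (n + 1) → k) :
    permB k d n π (Nl d a) = Nl d a := by
  unfold Nl permB
  rw [map_prod]
  simp only [map_sum, map_mul, rename_C, rename_X]
  exact Equiv.prod_comp π (fun j => ∑ t : Fin (n + 1), C (a t) * X (j, t))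

theorem permB_comp {k : Type} [Field k] (d n : ℕ) (π ρ : Equiv.Perm (Fin d)) (f : BB k d n) :
    permB k d n π (permB k d n ρ f) = permB k d n (π * ρ) f := by
  unfold permB
  rw [rename_rename]
  rfl

theorem starR_of_starB : StarB → StarR := by
  intro hB k _ _ d n q a hd hGP T hT m hm f hf
  obtain ⟨hf1, hf2⟩ := hf
  obtain ⟨g, hg, hfg⟩ := hB k d n q a hd hGP T hT m hm f hf1
  have hne : (Fintype.card (Equiv.Perm (Fin d)) : k) ≠ 0 :=
    Nat.cast_ne_zero.2 Fintype.card_ne_zero
  refine ⟨fun i => (Fintype.card (Equiv.Perm (Fin d)) : k)⁻¹ •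
    ∑ π : Equiv.Perm (Fin d), permB k d n π (g i), ?_, ?_⟩
  · intro i
    refine Submodule.smul_mem _ _ ⟨?_, ?_⟩
    · exact MHom.sum' _ _ fun π _ => MHom.perm π (hg i)
    · intro ρ
      rw [map_sum]
      simp only [permB_comp]
      exact Equiv.sum_comp (Equiv.mulLeft ρ) (fun π => permB k d n π (g i))
  · have key : ∀ π : Equiv.Perm (Fin d), f = ∑ i ∈ T, Nl d (a i) * permB k d n π (g i) := by
      intro π
      conv_lhs => rw [← hf2 π, hfg]
      rw [map_sum]
      simp only [map_mul, permB_Nl]
    have h2 : (Fintype.card (Equiv.Perm (Fin d)) : k) • f =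
        ∑ i ∈ T, Nl d (a i) * ∑ π : Equiv.Perm (Fin d), permB k d n π (g i) := by
      calc (Fintype.card (Equiv.Perm (Fin d)) : k) • f
          = ∑ _π : Equiv.Perm (Fin d), f := by
            rw [Finset.sum_const, Finset.card_univ, ← Nat.cast_smul_eq_nsmul k]
        _ = ∑ π : Equiv.Perm (Fin d), ∑ i ∈ T, Nl d (a i) * permB k d n π (g i) :=
            Finset.sum_congr rfl fun π _ => key π
        _ = _ := by
            rw [Finset.sum_comm]
            simp only [Finset.mul_sum]
    calc f = (Fintype.card (Equiv.Perm (Fin d)) : k)⁻¹ •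
          ((Fintype.card (Equiv.Perm (Fin d)) : k) • f) := by
            rw [smul_smul, inv_mul_cancel₀ hne, one_smul]
      _ = _ := by
            rw [h2, Finset.smul_sum]
            simp only [mul_smul_comm]

end Pool.Agent.Helper86.Ru
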